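import Mathlib

section

set_option autoImplicit false

namespace Pool.Agent.Lib.MP_4c94d3_al

open Filter Topology

lemma root_le (A n x : ℕ) (hA : 1 ≤ A) (h : x ≤ A ^ n) :
    (x : ℝ) ^ ((1 : ℝ) / (n : ℝ)) ≤ A := by
  rcases Nat.eq_zero_or_pos n with rfl | hn
  · simp
    exact_mod_cast hA
  · have hn' : (n : ℝ) ≠ 0 := by positivity
    have h1 : (x : ℝ) ≤ (A : ℝ) ^ (n : ℝ) := by
      rw [Real.rpow_natCast]; exact_mod_cast h
    calc (x : ℝ) ^ ((1 : ℝ) / (n : ℝ)) ≤ ((A : ℝ) ^ (n : ℝ)) ^ ((1 : ℝ) / (n : ℝ)) :=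
          Real.rpow_le_rpow (by positivity) h1 (by positivity)
      _ = A := by
          rw [← Real.rpow_mul (by positivity), mul_one_div_cancel hn', Real.rpow_one]

lemma one_le_root (n x : ℕ) (h : 1 ≤ x) : (1 : ℝ) ≤ (x : ℝ) ^ ((1 : ℝ) / (n : ℝ)) := by
  apply Real.one_le_rpow
  · exact_mod_cast h
  · positivity

lemma bdd_of (a : ℕ → ℕ) (A : ℕ) (hA : 1 ≤ A) (h : ∀ n, a n ≤ A ^ n) :
    IsBoundedUnder (· ≤ ·) atTop (fun n : ℕ => (a n : ℝ) ^ ((1 : ℝ) / (n : ℝ))) :=
  isBoundedUnder_of ⟨A, fun n => root_le A n (a n) hA (h n)⟩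

lemma cobdd_of (a : ℕ → ℕ) (h : ∀ n, 1 ≤ a n) :
    IsCoboundedUnder (· ≤ ·) atTop (fun n : ℕ => (a n : ℝ) ^ ((1 : ℝ) / (n : ℝ))) := by
  apply IsBoundedUnder.isCoboundedUnder_le
  exact isBoundedUnder_of ⟨1, fun n => one_le_root n (a n) (h n)⟩

theorem limsup_le_of_key (a b : ℕ → ℕ) (A c E : ℕ) (hA : 1 ≤ A)
    (ha1 : ∀ n, 1 ≤ a n) (hab : ∀ n, a n ≤ b n) (hb : ∀ n, b n ≤ A ^ n)
    (key : ∀ n, ∃ D, ∀ k, 1 ≤ k →
      (b n) ^ (2 * k) ≤ ((E * n + 1) * (2 * E * n + 1)) ^ (2 * k) * a (2 * k * (n + c) + D)) :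
    limsup (fun n : ℕ => (b n : ℝ) ^ ((1 : ℝ) / (n : ℝ))) atTop ≤
      limsup (fun n : ℕ => (a n : ℝ) ^ ((1 : ℝ) / (n : ℝ))) atTop := by
  have hbdd := bdd_of a A hA (fun n => (hab n).trans (hb n))
  have hb1 : ∀ n, 1 ≤ b n := fun n => (ha1 n).trans (hab n)
  have hcob := cobdd_of b hb1
  refine le_of_forall_lt_imp_le_of_dense fun ρ hρ => ?_
  rcases lt_or_ge ρ 1 with h1 | h1
  · apply le_limsup_of_frequently_le _ hbdd
    exact Frequently.of_forall fun n => h1.le.trans (one_le_root n (a n) (ha1 n))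
  · obtain ⟨ρ₁, hρ₁, hρ₁'⟩ := exists_between hρ
    have hρ0 : 0 < ρ := by linarith
    have hr : 1 < ρ₁ / ρ := by rwa [one_lt_div hρ0]
    have hfreq := frequently_lt_of_lt_limsup hcob hρ₁'
    -- eventually the exponential beats the polynomial
    have hC : (0 : ℝ) < 4 * (2 * E + 1) ^ 2 * ρ ^ c := by positivity
    have hev : ∀ᶠ n : ℕ in atTop, (n : ℝ) ^ 2 / (ρ₁ / ρ) ^ n < 1 / (4 * (2 * E + 1) ^ 2 * ρ ^ c) :=
      (tendsto_pow_const_div_const_pow_of_one_lt 2 hr).eventually_lt_const (by positivity)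
    obtain ⟨n, hn1, hn2, hn3⟩ := (hfreq.and_eventually (hev.and (eventually_ge_atTop 1))).exists
    have hn0 : (n : ℝ) ≠ 0 := by positivity
    -- b n > ρ₁ ^ n
    have hbn : ρ₁ ^ n ≤ b n := by
      have h2 : (ρ₁) ^ (n : ℝ) ≤ ((b n : ℝ) ^ ((1 : ℝ) / (n : ℝ))) ^ (n : ℝ) :=
        Real.rpow_le_rpow (by linarith) hn1.le (by positivity)
      rwa [← Real.rpow_mul (by positivity), one_div_mul_cancel hn0, Real.rpow_one,
        Real.rpow_natCast] at h2
    set p : ℝ := ((E * n + 1) * (2 * E * n + 1) : ℝ) with hp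
    have hp0 : 0 < p := by positivity
    have hple : p ≤ 4 * (2 * E + 1) ^ 2 * (n : ℝ) ^ 2 := by
      have hn3' : (1 : ℝ) ≤ n := by exact_mod_cast hn3
      have hE : (0 : ℝ) ≤ E := by positivity
      have e1 : (E * n + 1 : ℝ) ≤ (2 * E + 1) * n := by nlinarith
      have e2 : (2 * E * n + 1 : ℝ) ≤ (2 * E + 1) * n := by nlinarith
      have e3 : p ≤ ((2 * E + 1) * n) * ((2 * E + 1) * n) :=
        mul_le_mul e1 e2 (by positivity) (by positivity)
      nlinarith [sq_nonneg ((2 * E + 1 : ℝ) * n)]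
    have hbig : p * ρ ^ (n + c) ≤ b n := by
      refine le_trans ?_ hbn
      have e1 : p * ρ ^ c ≤ (ρ₁ / ρ) ^ n := by
        rw [div_lt_div_iff₀ (by positivity) hC] at hn2
        have : p * ρ ^ c ≤ 4 * (2 * E + 1) ^ 2 * (n : ℝ) ^ 2 * ρ ^ c :=
          mul_le_mul_of_nonneg_right hple (by positivity)
        nlinarith
      calc p * ρ ^ (n + c) = (p * ρ ^ c) * ρ ^ n := by rw [pow_add]; ring
        _ ≤ (ρ₁ / ρ) ^ n * ρ ^ n := mul_le_mul_of_nonneg_right e1 (by positivity)
        _ = ρ₁ ^ n := by rw [← mul_pow, div_mul_cancel₀ _ hρ0.ne']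
    obtain ⟨D, hD⟩ := key n
    have hak : ∀ k, 1 ≤ k → ρ ^ (2 * k * (n + c)) ≤ (a (2 * k * (n + c) + D) : ℝ) := by
      intro k hk
      have e1 : (p * ρ ^ (n + c)) ^ (2 * k) ≤ p ^ (2 * k) * (a (2 * k * (n + c) + D) : ℝ) := by
        calc (p * ρ ^ (n + c)) ^ (2 * k) ≤ (b n : ℝ) ^ (2 * k) :=
              pow_le_pow_left₀ (by positivity) hbig _
          _ ≤ p ^ (2 * k) * (a (2 * k * (n + c) + D) : ℝ) := by
              rw [hp]; exact_mod_cast hD k hk
      rw [mul_pow] at e1
      have e2 := le_of_mul_le_mul_left e1 (by positivity)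
      rwa [← pow_mul, mul_comm (n + c) (2 * k)] at e2
    refine le_of_forall_lt_imp_le_of_dense fun ρ' hρ' => ?_
    apply le_limsup_of_frequently_le _ hbdd
    -- the subsequence
    have hm : Tendsto (fun k : ℕ => 2 * k * (n + c) + D) atTop atTop := by
      apply tendsto_atTop_mono (f := fun k : ℕ => k) _ tendsto_id
      intro k
      nlinarith [Nat.zero_le c, Nat.zero_le D, Nat.zero_le k, Nat.mul_le_mul_left (2 * k)
        (show 1 ≤ n + c by omega)]
    have hlim : Tendsto (fun k : ℕ => ρ ^ (((2 * k * (n + c) : ℕ) : ℝ) *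
        (1 / ((2 * k * (n + c) + D : ℕ) : ℝ)))) atTop (𝓝 ρ) := by
      have h2 : Tendsto (fun k : ℕ => ((2 * k * (n + c) : ℕ) : ℝ) *
        (1 / ((2 * k * (n + c) + D : ℕ) : ℝ))) atTop (𝓝 1) := by
        have h3 : Tendsto (fun k : ℕ => 1 - (D : ℝ) * (1 / ((2 * k * (n + c) + D : ℕ) : ℝ))) atTop
            (𝓝 (1 - (D : ℝ) * 0)) := by
          apply Tendsto.sub tendsto_const_nhds
          apply Tendsto.const_mul
          exact (tendsto_one_div_atTop_nhds_zero_nat (𝕜 := ℝ)).comp hm
        simp only [mul_zero, sub_zero] at h3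
        refine h3.congr' ?_
        filter_upwards [eventually_ge_atTop 1] with k hk
        have h4 : ((2 * k * (n + c) + D : ℕ) : ℝ) ≠ 0 := by
          have : 0 < 2 * k * (n + c) := by positivity
          positivity
        field_simp
        push_cast
        ring
      have h5 := (tendsto_const_nhds (x := ρ)).rpow h2 (Or.inl hρ0.ne')
      simpa using h5
    have hev2 : ∀ᶠ k : ℕ in atTop, ρ' ≤ (a (2 * k * (n + c) + D) : ℝ) ^
        ((1 : ℝ) / ((2 * k * (n + c) + D : ℕ) : ℝ)) := by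
      filter_upwards [hlim.eventually_const_lt hρ', eventually_ge_atTop 1] with k hk hk1
      refine hk.le.trans ?_
      rw [Real.rpow_mul hρ0.le, Real.rpow_natCast]
      exact Real.rpow_le_rpow (by positivity) (hak k hk1) (by positivity)
    exact hm.frequently hev2.frequently

end Pool.Agent.Lib.MP_4c94d3_al
end

section

set_option autoImplicit false

namespace Pool.Agent.Lib.MP_4c94d3_al

open scoped Pointwise

variable {G : Type} [Group G]

/-- The ball of radius `n` for the generating set `S`. -/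
def ball (S : Finset G) (n : ℕ) : Set G :=
  {g : G | ∃ l : List G, l.length ≤ n ∧ (∀ x ∈ l, x ∈ S ∨ x⁻¹ ∈ S) ∧ l.prod = g}

lemma ball_mono (S : Finset G) {m n : ℕ} (h : m ≤ n) : ball S m ⊆ ball S n := by
  rintro g ⟨l, h1, h2, h3⟩
  exact ⟨l, h1.trans h, h2, h3⟩

lemma one_mem_ball (S : Finset G) (n : ℕ) : (1 : G) ∈ ball S n :=
  ⟨[], by simp, by simp, by simp⟩

lemma mul_mem_ball (S : Finset G) {m n : ℕ} {g h : G} (hg : g ∈ ball S m) (hh : h ∈ ball S n) :
    g * h ∈ ball S (m + n) := by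
  obtain ⟨l, h1, h2, h3⟩ := hg
  obtain ⟨l', h1', h2', h3'⟩ := hh
  refine ⟨l ++ l', by simpa using add_le_add h1 h1', ?_, by simp [h3, h3']⟩
  intro x hx
  rcases List.mem_append.1 hx with h | h
  · exact h2 x h
  · exact h2' x h

lemma inv_mem_ball (S : Finset G) {m : ℕ} {g : G} (hg : g ∈ ball S m) :
    g⁻¹ ∈ ball S m := by
  obtain ⟨l, h1, h2, h3⟩ := hg
  refine ⟨(l.map (fun x => x⁻¹)).reverse, by simpa using h1, ?_, ?_⟩
  · intro x hx
    simp only [List.mem_reverse, List.mem_map] at hx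
    obtain ⟨y, hy, rfl⟩ := hx
    rcases h2 y hy with h | h
    · right; simpa using h
    · left; exact h
  · rw [← h3, List.prod_inv_reverse]

lemma exists_mem_ball (S : Finset G) (hS : Subgroup.closure (S : Set G) = ⊤) (g : G) :
    ∃ n, g ∈ ball S n := by
  have hg : g ∈ Subgroup.closure (S : Set G) := by rw [hS]; trivial
  induction hg using Subgroup.closure_induction with
  | mem x hx => exact ⟨1, [x], by simp, by intro y hy; simp at hy; subst hy; left; exact hx, by simp⟩
  | one => exact ⟨0, one_mem_ball S 0⟩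
  | mul x y _ _ hx hy =>
    obtain ⟨m, hm⟩ := hx
    obtain ⟨n, hn⟩ := hy
    exact ⟨m + n, mul_mem_ball S hm hn⟩
  | inv x _ hx =>
    obtain ⟨m, hm⟩ := hx
    exact ⟨m, inv_mem_ball S hm⟩

lemma ball_succ_subset (S : Finset G) (n : ℕ) :
    ball S (n + 1) ⊆ (insert (1 : G) ((S : Set G) ∪ (S : Set G)⁻¹)) * ball S n := by
  rintro g ⟨l, h1, h2, h3⟩
  cases l with
  | nil =>
    simp at h3
    subst h3
    exact Set.mem_mul.2 ⟨1, by simp, 1, one_mem_ball S n, by simp⟩
  | cons a l =>
    refine Set.mem_mul.2 ⟨a, ?_, l.prod, ⟨l, ?_, ?_, rfl⟩, ?_⟩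
    · right
      rcases h2 a (by simp) with h | h
      · left; exact h
      · right; simpa using h
    · simpa using h1
    · intro x hx
      exact h2 x (by simp [hx])
    · simpa using h3

lemma ball_finite_card (S : Finset G) (n : ℕ) :
    (ball S n).Finite ∧ (ball S n).ncard ≤ (2 * S.card + 1) ^ n := by
  classical
  induction n with
  | zero =>
    have : ball S 0 = {1} := by
      ext g
      constructor
      · rintro ⟨l, h1, h2, h3⟩
        have : l = [] := by simpa using h1
        subst this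
        simpa using h3.symm
      · intro h
        simp at h
        subst h
        exact one_mem_ball S 0
    rw [this]
    simp
  | succ n ih =>
    have hT : (insert (1 : G) ((S : Set G) ∪ (S : Set G)⁻¹)).Finite := by
      apply Set.Finite.insert
      exact S.finite_toSet.union S.finite_toSet.inv
    have hTc : (insert (1 : G) ((S : Set G) ∪ (S : Set G)⁻¹)).ncard ≤ 2 * S.card + 1 := by
      refine (Set.ncard_insert_le _ _).trans ?_
      have h1 : ((S : Set G) ∪ (S : Set G)⁻¹).ncard ≤ S.card + S.card := by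
        refine (Set.ncard_union_le _ _).trans ?_
        have h2 : ((S : Set G)⁻¹).ncard = S.card := by
          have : ((S : Set G)⁻¹) = ((S⁻¹ : Finset G) : Set G) := by simp
          rw [this, Set.ncard_coe_finset, Finset.card_inv]
        rw [Set.ncard_coe_finset, h2]
      omega
    refine ⟨(hT.mul ih.1).subset (ball_succ_subset S n), ?_⟩
    refine (Set.ncard_le_ncard (ball_succ_subset S n) (hT.mul ih.1)).trans ?_
    have h3 : ((insert (1 : G) ((S : Set G) ∪ (S : Set G)⁻¹)) * ball S n).ncard ≤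
        (insert (1 : G) ((S : Set G) ∪ (S : Set G)⁻¹)).ncard * (ball S n).ncard := by
      rw [← Set.image_mul_prod]
      refine (Set.ncard_image_le (hT.prod ih.1)).trans ?_
      rw [Set.ncard_prod]
    refine h3.trans ?_
    rw [pow_succ, mul_comm]
    exact Nat.mul_le_mul ih.2 hTc

lemma ball_finite (S : Finset G) (n : ℕ) : (ball S n).Finite := (ball_finite_card S n).1

lemma ball_card_le (S : Finset G) (n : ℕ) : (ball S n).ncard ≤ (2 * S.card + 1) ^ n :=
  (ball_finite_card S n).2

end Pool.Agent.Lib.MP_4c94d3_al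
end

section

set_option autoImplicit false

namespace Pool.Agent.Lib.MP_4c94d3_al

/-- Triples `(w, k, b)`: a word over the rationals together with the affine map
`x ↦ 2 ^ k * x + b`. -/
@[ext]
structure W where
  w : FreeGroup ℚ
  k : ℤ
  b : ℚ

/-- The affine map `x ↦ 2 ^ k * x + b`. -/
def aff (k : ℤ) (b : ℚ) (x : ℚ) : ℚ := (2 : ℚ) ^ k * x + b

lemma aff_inj (k : ℤ) (b : ℚ) : Function.Injective (aff k b) := by
  intro x y h
  have h2 : (2 : ℚ) ^ k ≠ 0 := zpow_ne_zero _ two_ne_zero
  simp only [aff, add_left_inj] at h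
  exact mul_left_cancel₀ h2 h

lemma aff_aff (k l : ℤ) (b c x : ℚ) :
    aff k b (aff l c x) = aff (k + l) (b + (2 : ℚ) ^ k * c) x := by
  simp only [aff]
  rw [zpow_add₀ two_ne_zero]
  ring

/-- The induced endomorphism of the free group. -/
def sig (k : ℤ) (b : ℚ) : FreeGroup ℚ →* FreeGroup ℚ := FreeGroup.map (aff k b)

lemma sig_sig (k l : ℤ) (b c : ℚ) (w : FreeGroup ℚ) :
    sig k b (sig l c w) = sig (k + l) (b + (2 : ℚ) ^ k * c) w := by
  simp only [sig]
  rw [FreeGroup.map.comp]
  congr 2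
  funext x
  exact aff_aff k l b c x

lemma sig_zero (w : FreeGroup ℚ) : sig 0 0 w = w := by
  have : aff 0 0 = id := by
    funext x
    simp [aff]
  simp [sig, this]

instance : Mul W := ⟨fun g h => ⟨g.w * sig g.k g.b h.w, g.k + h.k, g.b + (2 : ℚ) ^ g.k * h.b⟩⟩
instance : One W := ⟨⟨1, 0, 0⟩⟩
instance : Inv W := ⟨fun g => ⟨sig (-g.k) (-((2 : ℚ) ^ (-g.k) * g.b)) g.w⁻¹, -g.k,
  -((2 : ℚ) ^ (-g.k) * g.b)⟩⟩

@[simp] lemma mul_w (g h : W) : (g * h).w = g.w * sig g.k g.b h.w := rfl
@[simp] lemma mul_k (g h : W) : (g * h).k = g.k + h.k := rfl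
@[simp] lemma mul_b (g h : W) : (g * h).b = g.b + (2 : ℚ) ^ g.k * h.b := rfl
@[simp] lemma one_w : (1 : W).w = 1 := rfl
@[simp] lemma one_k : (1 : W).k = 0 := rfl
@[simp] lemma one_b : (1 : W).b = 0 := rfl
@[simp] lemma inv_w (g : W) : g⁻¹.w = sig (-g.k) (-((2 : ℚ) ^ (-g.k) * g.b)) g.w⁻¹ := rfl
@[simp] lemma inv_k (g : W) : g⁻¹.k = -g.k := rfl
@[simp] lemma inv_b (g : W) : g⁻¹.b = -((2 : ℚ) ^ (-g.k) * g.b) := rfl

instance : Group W := Group.ofLeftAxioms
  (by
    intro a b c
    ext
    · simp only [mul_w, mul_k, mul_b, map_mul, mul_assoc, sig_sig]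
    · simp [add_assoc]
    · simp only [mul_b, mul_k]
      rw [zpow_add₀ two_ne_zero]
      ring)
  (by
    intro a
    ext
    · simp [sig_zero]
    · simp
    · simp)
  (by
    intro a
    ext
    · simp
    · simp
    · simp)

end Pool.Agent.Lib.MP_4c94d3_al
end

section

set_option autoImplicit false

namespace Pool.Agent.Lib.MP_4c94d3_al

/-- The action on lists of letters. -/
def lmap (k : ℤ) (b : ℚ) (L : List (ℚ × Bool)) : List (ℚ × Bool) :=
  L.map (fun p => (aff k b p.1, p.2))

lemma isReduced_lmap (k : ℤ) (b : ℚ) {L : List (ℚ × Bool)} (h : FreeGroup.IsReduced L) :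
    FreeGroup.IsReduced (lmap k b L) := by
  unfold FreeGroup.IsReduced lmap at *
  rw [List.isChain_map]
  refine h.imp ?_
  intro p q hpq hh
  exact hpq (aff_inj k b hh)

lemma toWord_sig (k : ℤ) (b : ℚ) (w : FreeGroup ℚ) :
    (sig k b w).toWord = lmap k b w.toWord := by
  conv_lhs => rw [← FreeGroup.mk_toWord (x := w)]
  rw [sig, FreeGroup.map.mk, FreeGroup.toWord_mk]
  exact (isReduced_lmap k b FreeGroup.isReduced_toWord).reduce_eq

lemma toWord_mul_of_isReduced {x y : FreeGroup ℚ}
    (h : FreeGroup.IsReduced (x.toWord ++ y.toWord)) :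
    (x * y).toWord = x.toWord ++ y.toWord := by
  rw [FreeGroup.toWord_mul, h.reduce_eq]

/-- Elements whose word starts with the letter `1` and ends with the letter `b`. -/
def Good (g : W) : Prop :=
  ∃ (δ ε : Bool) (L : List (ℚ × Bool)), g.w.toWord = (1, δ) :: (L ++ [(g.b, ε)])

lemma aff_one_ne (k : ℤ) (b : ℚ) : aff k b 1 ≠ b := by
  have h2 : (2 : ℚ) ^ k ≠ 0 := zpow_ne_zero _ two_ne_zero
  simp [aff, h2]

lemma Good.toWord_mul {g h : W} (hg : Good g) (hh : Good h) :
    (g * h).w.toWord = g.w.toWord ++ lmap g.k g.b h.w.toWord := by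
  rw [mul_w, ← toWord_sig]
  apply toWord_mul_of_isReduced
  rw [toWord_sig]
  obtain ⟨δ, ε, L, hL⟩ := hg
  obtain ⟨δ', ε', L', hL'⟩ := hh
  unfold FreeGroup.IsReduced
  rw [List.isChain_append]
  refine ⟨FreeGroup.isReduced_toWord, isReduced_lmap _ _ FreeGroup.isReduced_toWord, ?_⟩
  intro x hx y hy
  rw [hL, ← List.cons_append, List.getLast?_append] at hx
  rw [hL'] at hy
  simp [lmap] at hx hy
  subst hx hy
  intro h
  exact absurd h.symm (aff_one_ne _ _)

lemma Good.mul {g h : W} (hg : Good g) (hh : Good h) : Good (g * h) := by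
  have key := hg.toWord_mul hh
  obtain ⟨δ, ε, L, hL⟩ := hg
  obtain ⟨δ', ε', L', hL'⟩ := hh
  refine ⟨δ, ε', L ++ (g.b, ε) :: (aff g.k g.b 1, δ') :: lmap g.k g.b L', ?_⟩
  rw [key, hL, hL']
  simp [lmap, aff, add_comm]

lemma Good.left_inj {g g' h h' : W} (hg : Good g) (hg' : Good g') (hh : Good h) (hh' : Good h')
    (hlen : g.w.toWord.length = g'.w.toWord.length) (heq : g * h = g' * h') : g = g' := by
  have h1 := hg.toWord_mul hh
  have h2 := hg'.toWord_mul hh'
  rw [heq, h2] at h1
  obtain ⟨h3, h4⟩ := List.append_inj h1 hlen.symm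
  have hw : g.w = g'.w := FreeGroup.toWord_injective h3.symm
  obtain ⟨δ, ε, L, hL⟩ := hg
  obtain ⟨δ', ε', L', hL'⟩ := hg'
  obtain ⟨δ₁, ε₁, L₁, hL₁⟩ := hh
  obtain ⟨δ₁', ε₁', L₁', hL₁'⟩ := hh'
  have hb : g.b = g'.b := by
    rw [hL, hL', ← List.cons_append, ← List.cons_append] at h3
    have := (List.append_inj' h3 rfl).2
    simp at this
    exact this.1.symm
  have hk : g.k = g'.k := by
    rw [hL₁, hL₁'] at h4
    simp [lmap, aff] at h4
    have h5 := h4.1.1
    rw [hb] at h5
    have h6 : (2 : ℚ) ^ g'.k = (2 : ℚ) ^ g.k := by linarith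
    exact (zpow_right_injective₀ (by norm_num : (0 : ℚ) < 2) (by norm_num) h6).symm
  ext
  · exact hw
  · exact hk
  · exact hb

end Pool.Agent.Lib.MP_4c94d3_al
end

section

set_option autoImplicit false

namespace Pool.Agent.Lib.MP_4c94d3_al

open scoped Pointwise

/-- The word length of the free part. -/
def len (g : W) : ℕ := g.w.toWord.length

lemma len_one : len 1 = 0 := by simp [len]

lemma len_mul_le (g h : W) : len (g * h) ≤ len g + len h := by
  have h1 := FreeGroup.norm_mul_le g.w (sig g.k g.b h.w)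
  have h2 : (sig g.k g.b h.w).toWord.length = h.w.toWord.length := by
    rw [toWord_sig]; simp [lmap]
  unfold FreeGroup.norm at h1
  rw [h2] at h1
  exact h1

lemma len_inv (g : W) : len g⁻¹ = len g := by
  unfold len
  rw [inv_w, toWord_sig]
  simp [lmap, FreeGroup.toWord_inv, FreeGroup.invRev_length]

/-- A single letter, as an element of `W`. -/
def la (x : ℚ) (δ : Bool) : W := ⟨FreeGroup.mk [(x, δ)], 0, 0⟩

lemma la_inv (x : ℚ) (δ : Bool) : (la x δ)⁻¹ = la x (!δ) := by
  ext
  · simp [la, sig_zero, FreeGroup.invRev]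
  · simp [la]
  · simp [la]

lemma la_w_toWord (x : ℚ) (δ : Bool) : (la x δ).w.toWord = [(x, δ)] := by
  simp [la]

/-- sign of the first letter -/
def hd (v : W) : Bool := (v.w.toWord.head?.map Prod.snd).getD true
/-- sign of the last letter -/
def lst (v : W) : Bool := (v.w.toWord.getLast?.map Prod.snd).getD true

/-- The padded element. -/
def pad (v : W) : W := la 1 (hd v) * v * la 0 (lst v)

lemma pad_k (v : W) : (pad v).k = v.k := by simp [pad, la]
lemma pad_b (v : W) : (pad v).b = v.b := by simp [pad, la]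

lemma pad_toWord (v : W) :
    (pad v).w.toWord = (1, hd v) :: (v.w.toWord ++ [(v.b, lst v)]) := by
  have hred : FreeGroup.IsReduced ((1, hd v) :: (v.w.toWord ++ [(v.b, lst v)])) := by
    have hL : FreeGroup.IsReduced v.w.toWord := FreeGroup.isReduced_toWord
    unfold hd lst
    rcases List.eq_nil_or_concat v.w.toWord with h | ⟨L, x, h⟩
    · rw [h]
      simp [FreeGroup.IsReduced]
    · rw [h] at hL ⊢
      rw [List.concat_eq_append] at hL ⊢
      have h1 : FreeGroup.IsReduced ((L ++ [x]) ++ [(v.b, x.2)]) := by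
        unfold FreeGroup.IsReduced
        rw [List.isChain_append]
        refine ⟨hL, by simp, ?_⟩
        intro y hy z hz
        simp at hy hz
        subst hy hz
        simp
      simp only [List.getLast?_append, List.getLast?_singleton, Option.some_or, Option.map_some,
        Option.getD_some]
      unfold FreeGroup.IsReduced at h1 ⊢
      rw [List.isChain_cons]
      refine ⟨?_, h1⟩
      intro y hy
      cases L with
      | nil => simp at hy; subst hy; simp
      | cons z L => simp at hy; subst hy; simp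
  have e1 : (la 1 (hd v) * v).w = FreeGroup.mk [(1, hd v)] * v.w := by
    simp [la, sig_zero]
  have e2 : (pad v).w = FreeGroup.mk [(1, hd v)] * v.w * FreeGroup.mk [(v.b, lst v)] := by
    rw [pad, mul_w, e1]
    congr 1
    simp [la, sig, aff]
  have e3 : (pad v).w = FreeGroup.mk ((1, hd v) :: (v.w.toWord ++ [(v.b, lst v)])) := by
    rw [e2]
    conv_lhs => rw [← FreeGroup.mk_toWord (x := v.w)]
    simp only [FreeGroup.mul_mk]
    simp
  rw [e3, FreeGroup.toWord_mk, hred.reduce_eq]

lemma pad_good (v : W) : Good (pad v) :=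
  ⟨hd v, lst v, v.w.toWord, by rw [pad_toWord, pad_b]⟩

lemma len_pad (v : W) : len (pad v) = len v + 2 := by
  unfold len
  rw [pad_toWord]
  simp

lemma pad_inj : Function.Injective pad := by
  intro v v' h
  have h1 := pad_toWord v
  rw [h, pad_toWord v'] at h1
  have h2 : hd v' = hd v ∧ v'.w.toWord ++ [(v'.b, lst v')] = v.w.toWord ++ [(v.b, lst v)] := by
    simpa using h1
  have h3 := (List.append_inj' h2.2 rfl)
  have h4 : v.w = v'.w := FreeGroup.toWord_injective h3.1.symm
  have h5 : v'.b = v.b := by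
    have := h3.2
    simp at this
    exact this.1
  have h6 : v.k = v'.k := by rw [← pad_k v, h, pad_k]
  ext
  · exact h4
  · exact h6
  · exact h5.symm

lemma Good.len_mul {g h : W} (hg : Good g) (hh : Good h) : len (g * h) = len g + len h := by
  unfold len
  rw [hg.toWord_mul hh]
  simp [lmap]

variable {K : Subgroup W}

open scoped Classical in
lemma prod_inj (P : Finset K) (ℓ : ℕ) (hP : ∀ p ∈ P, Good (p : W) ∧ len (p : W) = ℓ) (k : ℕ) :
    (P ^ (k + 1)).card = P.card ^ (k + 1) ∧ ∀ p ∈ P ^ (k + 1), Good (p : W) := by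
  induction k with
  | zero => simpa using fun p hp hp' => (hP ⟨p, hp⟩ hp').1
  | succ k ih =>
    constructor
    · rw [pow_succ' P (k + 1), Finset.card_mul_iff.2, ih.1, pow_succ' P.card (k + 1)]
      rintro ⟨x, y⟩ hxy ⟨x', y'⟩ hxy' h
      simp only [Set.mem_prod, Finset.mem_coe] at hxy hxy'
      have h' : (x : W) * y = x' * y' := by
        have := congrArg (fun z : K => (z : W)) h
        simpa using this
      have hx : (x : W) = x' := Good.left_inj (hP x hxy.1).1 (hP x' hxy'.1).1 (ih.2 y hxy.2)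
        (ih.2 y' hxy'.2) (by
          have h1 := (hP x hxy.1).2
          have h2 := (hP x' hxy'.1).2
          unfold len at h1 h2
          rw [h1, h2]) h'
      have hx' : x = x' := Subtype.ext hx
      subst hx'
      have hy : (y : W) = y' := mul_left_cancel h'
      have hy' : y = y' := Subtype.ext hy
      rw [hy']
    · intro p hp
      rw [pow_succ' P (k + 1)] at hp
      obtain ⟨x, hx, y, hy, rfl⟩ := Finset.mem_mul.1 hp
      rw [Subgroup.coe_mul]
      exact (hP x hx).1.mul (ih.2 y hy)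

/-- `u ^ M * g * (u ^ M)⁻¹ ∈ H` is a subgroup condition. -/
def conjSub {G : Type} [Group G] (H : Subgroup G) (x : G) : Subgroup G :=
  H.comap (MulAut.conj x).toMonoidHom

lemma mem_conjSub {G : Type} [Group G] (H : Subgroup G) (x g : G) :
    g ∈ conjSub H x ↔ x * g * x⁻¹ ∈ H := by
  simp [conjSub, Subgroup.mem_comap]

lemma finset_pow_subset {G : Type} [Group G] [DecidableEq G] (P : Finset G) (H : Subgroup G)
    (h : ∀ p ∈ P, p ∈ H) (k : ℕ) : ∀ p ∈ P ^ k, p ∈ H := by
  induction k with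
  | zero => intro p hp; simp at hp; subst hp; exact H.one_mem
  | succ k ih =>
    intro p hp
    rw [pow_succ] at hp
    obtain ⟨x, hx, y, hy, rfl⟩ := Finset.mem_mul.1 hp
    exact H.mul_mem (ih x hx) (h y hy)

lemma finset_pow_ball {G : Type} [Group G] [DecidableEq G] (S : Finset G) (P : Finset G) (r : ℕ)
    (h : ∀ p ∈ P, p ∈ ball S r) (k : ℕ) : ∀ p ∈ P ^ k, p ∈ ball S (k * r) := by
  induction k with
  | zero => intro p hp; simp at hp; subst hp; exact one_mem_ball S _
  | succ k ih =>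
    intro p hp
    rw [pow_succ] at hp
    obtain ⟨x, hx, y, hy, rfl⟩ := Finset.mem_mul.1 hp
    have := mul_mem_ball S (ih x hx) (h y hy)
    rwa [← Nat.succ_mul] at this

/-- Linear bounds on the word length and on the exponent `k` in terms of the radius. -/
lemma exists_E (S : Finset K) : ∃ E : ℕ, ∀ n, ∀ g ∈ ball S n, len (g : W) ≤ E * n ∧
    |(g : W).k| ≤ E * n := by
  refine ⟨S.sum (fun s => len (s : W) + (s : W).k.natAbs), ?_⟩
  set E := S.sum (fun s => len (s : W) + (s : W).k.natAbs) with hE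
  have hs : ∀ s : K, (s ∈ S ∨ s⁻¹ ∈ S) → len (s : W) ≤ E ∧ |(s : W).k| ≤ E := by
    have h1 : ∀ s ∈ S, len (s : W) + (s : W).k.natAbs ≤ E := fun s hs =>
      Finset.single_le_sum (f := fun s : K => len (s : W) + (s : W).k.natAbs)
        (fun _ _ => Nat.zero_le _) hs
    intro s hs
    rcases hs with hs | hs
    · have := h1 s hs
      rw [Int.abs_eq_natAbs]
      constructor
      · omega
      · omega
    · have := h1 _ hs
      rw [Subgroup.coe_inv, len_inv, inv_k, Int.natAbs_neg] at this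
      rw [Int.abs_eq_natAbs]
      constructor
      · omega
      · omega
  rintro n g ⟨l, hl, hlS, rfl⟩
  have : len ((l.prod : K) : W) ≤ E * l.length ∧ |((l.prod : K) : W).k| ≤ E * l.length := by
    clear hl
    induction l with
    | nil => simp [len_one]
    | cons a l ih =>
      have ih' := ih (fun x hx => hlS x (by simp [hx]))
      have ha := hs a (hlS a (by simp))
      rw [List.prod_cons, Subgroup.coe_mul, mul_k]
      constructor
      · refine (len_mul_le _ _).trans ?_
        simp only [List.length_cons]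
        have := ih'.1
        have := ha.1
        nlinarith
      · refine (abs_add_le _ _).trans ?_
        simp only [List.length_cons]
        have h3 := ih'.2
        have h4 := ha.2
        have h5 : (E : ℤ) * ((l.length + 1 : ℕ) : ℤ) = E * l.length + E := by push_cast; ring
        rw [h5]
        linarith
  constructor
  · exact this.1.trans (Nat.mul_le_mul_left _ hl)
  · refine this.2.trans ?_
    exact_mod_cast Nat.mul_le_mul_left _ hl

/-- The key counting inequality. -/
theorem key (S : Finset K) (hS : Subgroup.closure (S : Set K) = ⊤) (H : Subgroup K) (u : K)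
    (hla : ∀ x ∈ ({0, 1} : Set ℚ), ∀ δ, la x δ ∈ K)
    (hH : ∀ g : K, (g : W).k = 0 → ∃ M : ℕ, ∀ m ≥ M, u ^ m * g * (u ^ m)⁻¹ ∈ H) :
    ∃ c E : ℕ, ∀ n, ∃ D, ∀ k, 1 ≤ k →
      ((ball S n).ncard) ^ (2 * k) ≤ ((E * n + 1) * (2 * E * n + 1)) ^ (2 * k) *
        ((H : Set K) ∩ ball S (2 * k * (n + c) + D)).ncard := by
  classical
  obtain ⟨E, hE⟩ := exists_E S
  -- letters in the group
  let L : ℚ → Bool → K := fun x δ => if h : x ∈ ({0, 1} : Set ℚ) then ⟨la x δ, hla x h δ⟩ else 1
  have hL0 : ∀ δ, ((L 0 δ : K) : W) = la 0 δ := by intro δ; simp [L]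
  have hL1 : ∀ δ, ((L 1 δ : K) : W) = la 1 δ := by intro δ; simp [L]
  obtain ⟨c0, hc0⟩ : ∃ c0, ∀ δ, L 0 δ ∈ ball S c0 := by
    obtain ⟨m, hm⟩ := exists_mem_ball S hS (L 0 true)
    obtain ⟨m', hm'⟩ := exists_mem_ball S hS (L 0 false)
    refine ⟨m + m', ?_⟩
    intro δ
    cases δ
    · exact ball_mono S (by omega) hm'
    · exact ball_mono S (by omega) hm
  obtain ⟨c1, hc1⟩ : ∃ c1, ∀ δ, L 1 δ ∈ ball S c1 := by
    obtain ⟨m, hm⟩ := exists_mem_ball S hS (L 1 true)
    obtain ⟨m', hm'⟩ := exists_mem_ball S hS (L 1 false)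
    refine ⟨m + m', ?_⟩
    intro δ
    cases δ
    · exact ball_mono S (by omega) hm'
    · exact ball_mono S (by omega) hm
  let padK : K → K := fun v => L 1 (hd v) * v * L 0 (lst v)
  have hpad : ∀ v : K, ((padK v : K) : W) = pad v := by
    intro v; simp only [padK, Subgroup.coe_mul, hL0, hL1, pad]
  have hpadinj : Function.Injective padK := by
    intro v v' h
    apply Subtype.ext
    apply pad_inj
    rw [← hpad, ← hpad, h]
  refine ⟨c0 + c1, E, ?_⟩
  intro n
  let B : Finset K := (ball_finite S n).toFinset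
  have hBmem : ∀ v, v ∈ B ↔ v ∈ ball S n := fun v => by simp [B]
  have hBcard : B.card = (ball S n).ncard := by
    rw [Set.ncard_eq_toFinset_card _ (ball_finite S n)]
  let ty : K → ℕ × ℤ := fun v => (len (v : W), (v : W).k)
  let T : Finset (ℕ × ℤ) := (Finset.range (E * n + 1)) ×ˢ (Finset.Icc (-(E * n : ℤ)) (E * n))
  have hTcard : T.card = (E * n + 1) * (2 * E * n + 1) := by
    simp only [T, Finset.card_product, Finset.card_range, Int.card_Icc]
    congr 1
    have : ((E * n : ℤ) + 1 - (-(E * n : ℤ))) = ((2 * E * n + 1 : ℕ) : ℤ) := by push_cast; ring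
    rw [this, Int.toNat_natCast]
  have hmaps : ∀ v ∈ B, ty v ∈ T := by
    intro v hv
    have := hE n v ((hBmem v).1 hv)
    simp only [ty, T, Finset.mem_product, Finset.mem_range, Finset.mem_Icc]
    refine ⟨by omega, ?_⟩
    exact abs_le.1 this.2
  have hTne : T.Nonempty := ⟨ty 1, hmaps 1 ((hBmem 1).2 (one_mem_ball S n))⟩
  let fib : ℕ × ℤ → Finset K := fun τ => B.filter (fun v => ty v = τ)
  obtain ⟨τ, hτT, hτ⟩ := Finset.exists_max_image T (fun τ => (fib τ).card) hTne
  set M := (fib τ).card with hM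
  have hBle : B.card ≤ M * T.card :=
    Finset.card_le_mul_card_image_of_maps_to hmaps M (fun τ' h' => hτ τ' h')
  let τ' : ℕ × ℤ := (τ.1, -τ.2)
  have hfib' : M ≤ (fib τ').card := by
    apply Finset.card_le_card_of_injOn (fun v => v⁻¹)
    · intro v hv
      simp only [fib, Finset.coe_filter, Set.mem_ofPred_eq] at hv ⊢
      refine ⟨(hBmem _).2 (inv_mem_ball S ((hBmem _).1 hv.1)), ?_⟩
      have := hv.2
      simp only [ty, τ', Subgroup.coe_inv, len_inv, inv_k] at this ⊢
      rw [← this]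
    · intro v _ v' _ h
      exact inv_injective h
  let Vp := (fib τ).image padK
  let Vm := (fib τ').image padK
  have hVp : Vp.card = M := Finset.card_image_of_injective _ hpadinj
  have hVm : M ≤ Vm.card := by
    rw [Finset.card_image_of_injective _ hpadinj]; exact hfib'
  have hVp' : ∀ v ∈ Vp, Good (v : W) ∧ len (v : W) = τ.1 + 2 ∧ (v : W).k = τ.2 ∧
      v ∈ ball S (c1 + n + c0) := by
    intro v hv
    obtain ⟨w, hw, rfl⟩ := Finset.mem_image.1 hv
    simp only [fib, Finset.mem_filter] at hw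
    have h2 : ty w = τ := hw.2
    refine ⟨by rw [hpad]; exact pad_good _, by rw [hpad, len_pad, ← h2], by
      rw [hpad, pad_k, ← h2], ?_⟩
    exact mul_mem_ball S (mul_mem_ball S (hc1 _) ((hBmem _).1 hw.1)) (hc0 _)
  have hVm' : ∀ v ∈ Vm, Good (v : W) ∧ len (v : W) = τ.1 + 2 ∧ (v : W).k = -τ.2 ∧
      v ∈ ball S (c1 + n + c0) := by
    intro v hv
    obtain ⟨w, hw, rfl⟩ := Finset.mem_image.1 hv
    simp only [fib, Finset.mem_filter] at hw
    have h2 : ty w = τ' := hw.2
    have h3 : len (w : W) = τ.1 := congrArg Prod.fst h2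
    have h4 : (w : W).k = -τ.2 := congrArg Prod.snd h2
    refine ⟨by rw [hpad]; exact pad_good _, by rw [hpad, len_pad, h3], by
      rw [hpad, pad_k, h4], ?_⟩
    exact mul_mem_ball S (mul_mem_ball S (hc1 _) ((hBmem _).1 hw.1)) (hc0 _)
  let P := Vp * Vm
  have hPcard : M ^ 2 ≤ P.card := by
    have : P.card = Vp.card * Vm.card := by
      rw [Finset.card_mul_iff]
      rintro ⟨x, y⟩ hxy ⟨x', y'⟩ hxy' h
      simp only [Set.mem_prod, Finset.mem_coe] at hxy hxy'
      have h' : (x : W) * y = x' * y' := by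
        have := congrArg (fun z : K => (z : W)) h
        simpa using this
      have hx : (x : W) = x' := Good.left_inj (hVp' x hxy.1).1 (hVp' x' hxy'.1).1
        (hVm' y hxy.2).1 (hVm' y' hxy'.2).1 (by
          have h1 := (hVp' x hxy.1).2.1
          have h2 := (hVp' x' hxy'.1).2.1
          unfold len at h1 h2
          rw [h1, h2]) h'
      have hx' : x = x' := Subtype.ext hx
      subst hx'
      have hy : (y : W) = y' := mul_left_cancel h'
      have hy' : y = y' := Subtype.ext hy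
      rw [hy']
    rw [this, hVp, sq]
    exact Nat.mul_le_mul_left _ hVm
  have hP : ∀ p ∈ P, Good (p : W) ∧ len (p : W) = (τ.1 + 2) + (τ.1 + 2) := by
    intro p hp
    obtain ⟨x, hx, y, hy, rfl⟩ := Finset.mem_mul.1 hp
    have h1 := hVp' x hx
    have h2 := hVm' y hy
    rw [Subgroup.coe_mul]
    refine ⟨h1.1.mul h2.1, ?_⟩
    rw [h1.1.len_mul h2.1, h1.2.1, h2.2.1]
  have hPk : ∀ p ∈ P, (p : W).k = 0 := by
    intro p hp
    obtain ⟨x, hx, y, hy, rfl⟩ := Finset.mem_mul.1 hp
    rw [Subgroup.coe_mul, mul_k, (hVp' x hx).2.2.1, (hVm' y hy).2.2.1]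
    ring
  have hPball : ∀ p ∈ P, p ∈ ball S (2 * (n + (c0 + c1))) := by
    intro p hp
    obtain ⟨x, hx, y, hy, rfl⟩ := Finset.mem_mul.1 hp
    have := mul_mem_ball S (hVp' x hx).2.2.2 (hVm' y hy).2.2.2
    exact ball_mono S (by omega) this
  -- uniform conjugator
  obtain ⟨M0, hM0⟩ : ∃ M0 : ℕ, ∀ p ∈ P, p ∈ conjSub H (u ^ M0) := by
    choose! f hf using fun (p : K) (hp : (p : W).k = 0) => hH p hp
    refine ⟨P.sup f, ?_⟩
    intro p hp
    rw [mem_conjSub]
    exact hf p (hPk p hp) _ (Finset.le_sup hp)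
  obtain ⟨r, hr⟩ := exists_mem_ball S hS (u ^ M0)
  refine ⟨2 * r, ?_⟩
  intro k hk
  obtain ⟨k', rfl⟩ : ∃ k', k = k' + 1 := ⟨k - 1, by omega⟩
  have hpow := prod_inj P _ hP k'
  have hcount : P.card ^ (k' + 1) ≤
      ((H : Set K) ∩ ball S (2 * (k' + 1) * (n + (c0 + c1)) + 2 * r)).ncard := by
    rw [← hpow.1, ← Set.ncard_coe_finset]
    apply Set.ncard_le_ncard_of_injOn (fun x => u ^ M0 * x * (u ^ M0)⁻¹)
      (ht := (ball_finite S _).subset Set.inter_subset_right)
    · intro x hx
      have hx' : x ∈ P ^ (k' + 1) := Finset.mem_coe.1 hx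
      refine ⟨(mem_conjSub H _ x).1 (finset_pow_subset P _ hM0 _ x hx'), ?_⟩
      have h1 := finset_pow_ball S P _ hPball (k' + 1) x hx'
      have h2 := mul_mem_ball S (mul_mem_ball S hr h1) (inv_mem_ball S hr)
      refine ball_mono S ?_ h2
      nlinarith
    · intro x _ y _ h
      simpa using h
  calc ((ball S n).ncard) ^ (2 * (k' + 1)) ≤ (M * T.card) ^ (2 * (k' + 1)) := by
        rw [← hBcard]; exact Nat.pow_le_pow_left hBle _
    _ = T.card ^ (2 * (k' + 1)) * (M ^ 2) ^ (k' + 1) := by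
        rw [mul_pow, ← pow_mul M 2]; ring
    _ ≤ T.card ^ (2 * (k' + 1)) * P.card ^ (k' + 1) :=
        Nat.mul_le_mul_left _ (Nat.pow_le_pow_left hPcard _)
    _ ≤ _ := by
        rw [hTcard]
        exact Nat.mul_le_mul_left _ hcount

end Pool.Agent.Lib.MP_4c94d3_al
end

section

set_option autoImplicit false

namespace Pool.Agent.Lib.MP_4c94d3_al

/-- being an integer -/
def IsInt (x : ℚ) : Prop := ∃ n : ℤ, x = n

lemma not_isInt_half_add {x : ℚ} (hx : IsInt x) : ¬ IsInt (x + 1 / 2) := by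
  rintro ⟨m, hm⟩
  obtain ⟨n, rfl⟩ := hx
  have h : (2 * n + 1 : ℤ) = 2 * m := by
    have : (2 * n + 1 : ℚ) = 2 * m := by linarith
    exact_mod_cast this
  omega

lemma isInt_add {x y : ℚ} (hx : IsInt x) (hy : IsInt y) : IsInt (x + y) := by
  obtain ⟨n, rfl⟩ := hx
  obtain ⟨m, rfl⟩ := hy
  exact ⟨n + m, by push_cast; rfl⟩

lemma isInt_neg {x : ℚ} (hx : IsInt x) : IsInt (-x) := by
  obtain ⟨n, rfl⟩ := hx
  exact ⟨-n, by push_cast; rfl⟩

/-- Elements with integral letters and integral translation part. -/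
def HW : Subgroup W where
  carrier := {g | g.k = 0 ∧ IsInt g.b ∧ ∀ p ∈ g.w.toWord, IsInt p.1}
  one_mem' := by
    refine ⟨rfl, ⟨0, by simp⟩, by simp⟩
  mul_mem' := by
    rintro g h ⟨h1, h2, h3⟩ ⟨h1', h2', h3'⟩
    refine ⟨by simp [h1, h1'], ?_, ?_⟩
    · rw [mul_b, h1]
      simpa using isInt_add h2 h2'
    · intro p hp
      rw [mul_w] at hp
      have := (FreeGroup.toWord_mul_sublist _ _).subset hp
      rcases List.mem_append.1 this with h | h
      · exact h3 p h
      · rw [toWord_sig] at h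
        simp only [lmap, List.mem_map] at h
        obtain ⟨q, hq, rfl⟩ := h
        simp only [aff, h1]
        simpa using isInt_add (h3' q hq) h2
  inv_mem' := by
    rintro g ⟨h1, h2, h3⟩
    refine ⟨by simp [h1], ?_, ?_⟩
    · rw [inv_b, h1]
      simpa using isInt_neg h2
    · intro p hp
      rw [inv_w, toWord_sig, FreeGroup.toWord_inv] at hp
      simp only [lmap, List.mem_map, FreeGroup.invRev, List.mem_reverse] at hp
      obtain ⟨q, ⟨r, hr, rfl⟩, rfl⟩ := hp
      simp only [aff, h1]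
      have := isInt_add (h3 r hr) (isInt_neg h2)
      simpa using this

lemma mem_HW {g : W} : g ∈ HW ↔ g.k = 0 ∧ IsInt g.b ∧ ∀ p ∈ g.w.toWord, IsInt p.1 := Iff.rfl

/-- the free letter -/
def tW : W := la (1 / 2) true

/-- The alternating products `h₀ t h₁ t ⋯ t hₖ`. -/
def EW : W → List W → W
  | h, [] => h
  | h, h' :: l => h * tW * EW h' l

/-- non-integral letters are positive -/
def Inv (L : List (ℚ × Bool)) : Prop := ∀ p ∈ L, ¬ IsInt p.1 → p.2 = true

lemma mul_t_mul_w (h x : W) (hk : h.k = 0) :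
    (h * tW * x).w = h.w * FreeGroup.mk [(h.b + 1 / 2, true)] * sig 0 h.b x.w := by
  simp only [mul_w, mul_k, mul_b, tW, la, hk]
  congr 1
  · congr 1
    simp [sig, aff, add_comm]
  · simp

lemma toWord_mul_t_mul (h x : W) (hh : h ∈ HW) (hx : Inv x.w.toWord) :
    (h * tW * x).w.toWord =
      h.w.toWord ++ (h.b + 1 / 2, true) :: lmap 0 h.b x.w.toWord := by
  rw [mul_t_mul_w h x hh.1]
  have hred : FreeGroup.IsReduced (h.w.toWord ++ (h.b + 1 / 2, true) :: lmap 0 h.b x.w.toWord) := by
    unfold FreeGroup.IsReduced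
    rw [List.isChain_append]
    refine ⟨FreeGroup.isReduced_toWord, ?_, ?_⟩
    · rw [List.isChain_cons]
      refine ⟨?_, isReduced_lmap _ _ FreeGroup.isReduced_toWord⟩
      intro y hy
      have hy' : y ∈ lmap 0 h.b x.w.toWord := List.mem_of_head? hy
      simp only [lmap, List.mem_map] at hy'
      obtain ⟨q, hq, rfl⟩ := hy'
      simp only [aff, zpow_zero, one_mul]
      intro heq
      have h1 : q.1 = 1 / 2 := by linarith
      have h2 : ¬ IsInt q.1 := by
        rw [h1]
        have := not_isInt_half_add (x := 0) ⟨0, by simp⟩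
        simpa using this
      exact (hx q hq h2).symm
    · intro p hp q hq
      simp only [List.head?_cons, Option.mem_def, Option.some.injEq] at hq
      subst hq
      have hp' := List.mem_of_getLast? hp
      have := hh.2.2 p hp'
      intro heq
      rw [heq] at this
      exact absurd this (not_isInt_half_add hh.2.1)
  have e : h.w * FreeGroup.mk [(h.b + 1 / 2, true)] * sig 0 h.b x.w =
      FreeGroup.mk (h.w.toWord ++ (h.b + 1 / 2, true) :: lmap 0 h.b x.w.toWord) := by
    conv_lhs => rw [← FreeGroup.mk_toWord (x := h.w), ← FreeGroup.mk_toWord (x := sig 0 h.b x.w),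
      toWord_sig]
    simp only [FreeGroup.mul_mk]
    simp
  rw [e, FreeGroup.toWord_mk, hred.reduce_eq]

lemma inv_of_mem_HW {h : W} (hh : h ∈ HW) : Inv h.w.toWord := fun p hp hp' =>
  absurd (hh.2.2 p hp) hp'

lemma inv_EW (l : List W) : ∀ h : W, h ∈ HW → (∀ x ∈ l, x ∈ HW) → Inv (EW h l).w.toWord := by
  induction l with
  | nil => intro h hh _; exact inv_of_mem_HW hh
  | cons h' l ih =>
    intro h hh hl
    have ih' := ih h' (hl h' (by simp)) (fun x hx => hl x (by simp [hx]))
    rw [EW, toWord_mul_t_mul h _ hh ih']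
    intro p hp hp'
    rcases List.mem_append.1 hp with h1 | h1
    · exact absurd (hh.2.2 p h1) hp'
    · rcases List.mem_cons.1 h1 with h2 | h2
      · rw [h2]
      · simp only [lmap, List.mem_map] at h2
        obtain ⟨q, hq, rfl⟩ := h2
        apply ih' q hq
        intro hq'
        apply hp'
        simp only [aff]
        simpa using isInt_add hq' hh.2.1

lemma decode : ∀ (L L' : List (ℚ × Bool)) (a a' : ℚ × Bool) (R R' : List (ℚ × Bool)),
    (∀ p ∈ L, IsInt p.1) → (∀ p ∈ L', IsInt p.1) → ¬ IsInt a.1 → ¬ IsInt a'.1 →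
    L ++ a :: R = L' ++ a' :: R' → L = L' ∧ a = a' ∧ R = R' := by
  intro L
  induction L with
  | nil =>
    intro L' a a' R R' _ h2 h3 _ h
    cases L' with
    | nil => simpa using h
    | cons b L' =>
      simp at h
      exact absurd (h.1 ▸ h2 b (by simp)) h3
  | cons b L ih =>
    intro L' a a' R R' h1 h2 h3 h4 h
    cases L' with
    | nil =>
      simp at h
      exact absurd (h.1 ▸ h1 b (by simp)) h4
    | cons b' L' =>
      simp only [List.cons_append, List.cons.injEq] at h
      obtain ⟨e1, e2, e3⟩ := ih L' a a' R R' (fun p hp => h1 p (by simp [hp]))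
        (fun p hp => h2 p (by simp [hp])) h3 h4 h.2
      exact ⟨by rw [h.1, e1], e2, e3⟩

lemma EW_inj (l : List W) : ∀ (h h' : W) (l' : List W), h ∈ HW → h' ∈ HW →
    (∀ x ∈ l, x ∈ HW) → (∀ x ∈ l', x ∈ HW) → EW h l = EW h' l' → h = h' ∧ l = l' := by
  induction l with
  | nil =>
    intro h h' l' hh hh' _ hl' heq
    cases l' with
    | nil => exact ⟨heq, rfl⟩
    | cons x l' =>
      exfalso
      rw [EW, EW] at heq
      have h1 := toWord_mul_t_mul h' (EW x l') hh' (inv_EW l' x (hl' x (by simp))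
        (fun y hy => hl' y (by simp [hy])))
      rw [← heq] at h1
      have h2 : (h'.b + 1 / 2, true) ∈ h.w.toWord := by rw [h1]; simp
      exact not_isInt_half_add hh'.2.1 (hh.2.2 _ h2)
  | cons x l ih =>
    intro h h' l' hh hh' hl hl' heq
    have h1 := toWord_mul_t_mul h (EW x l) hh (inv_EW l x (hl x (by simp))
        (fun y hy => hl y (by simp [hy])))
    cases l' with
    | nil =>
      exfalso
      rw [EW, EW] at heq
      rw [heq] at h1
      have h2 : (h.b + 1 / 2, true) ∈ h'.w.toWord := by rw [h1]; simp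
      exact not_isInt_half_add hh.2.1 (hh'.2.2 _ h2)
    | cons x' l' =>
      have h1' := toWord_mul_t_mul h' (EW x' l') hh' (inv_EW l' x' (hl' x' (by simp))
        (fun y hy => hl' y (by simp [hy])))
      rw [EW, EW] at heq
      rw [heq, h1'] at h1
      obtain ⟨e1, e2, _⟩ := decode _ _ _ _ _ _ hh'.2.2 hh.2.2 (not_isInt_half_add hh'.2.1)
        (not_isInt_half_add hh.2.1) h1
      have ew : h.w = h'.w := (FreeGroup.toWord_injective e1).symm
      have eb : h.b = h'.b := by
        have := congrArg Prod.fst e2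
        simp at this
        exact this.symm
      have ek : h.k = h'.k := by rw [hh.1, hh'.1]
      have ehh : h = h' := W.ext ew ek eb
      subst ehh
      have e4 : EW x l = EW x' l' := mul_left_cancel heq
      obtain ⟨e5, e6⟩ := ih x x' l' (hl x (by simp)) (hl' x' (by simp))
        (fun y hy => hl y (by simp [hy])) (fun y hy => hl' y (by simp [hy])) e4
      exact ⟨rfl, by rw [e5, e6]⟩

section Coprod

variable {G : Type} [Group G] (H : Subgroup G)

/-- normal forms in the free product of `H` with the naturals -/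
def EC : H → List H → Monoid.Coprod H (Multiplicative ℕ)
  | h, [] => Monoid.Coprod.inl h
  | h, h' :: l => Monoid.Coprod.inl h * Monoid.Coprod.inr (Multiplicative.ofAdd 1) * EC h' l

lemma inl_mul_EC (h h' : H) (l : List H) :
    Monoid.Coprod.inl h * EC H h' l = EC H (h * h') l := by
  cases l with
  | nil => simp [EC]
  | cons x l => simp [EC, mul_assoc]

lemma exists_EC (x : Monoid.Coprod H (Multiplicative ℕ)) : ∃ h l, x = EC H h l := by
  induction x using Monoid.Coprod.induction_on with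
  | inl m => exact ⟨m, [], rfl⟩
  | inr n =>
    induction n using Multiplicative.rec with
    | ofAdd n =>
      induction n with
      | zero => exact ⟨1, [], by simp [EC]⟩
      | succ n ih =>
        obtain ⟨h, l, hl⟩ := ih
        refine ⟨1, h :: l, ?_⟩
        rw [EC, ← hl, map_one, one_mul, ← map_mul, ← ofAdd_add, add_comm]
  | mul x y hx hy =>
    obtain ⟨h, l, rfl⟩ := hx
    obtain ⟨h', l', rfl⟩ := hy
    induction l generalizing h with
    | nil => exact ⟨h * h', l', by rw [EC, inl_mul_EC]⟩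
    | cons x l ih =>
      obtain ⟨h2, l2, h3⟩ := ih x
      exact ⟨h, h2 :: l2, by rw [EC, EC, ← h3, mul_assoc _ (EC H x l)]⟩

end Coprod

/-- coercion from the subgroup `H` of `K` to `W` -/
def toW {K : Subgroup W} (H : Subgroup K) (x : H) : W := ((x : K) : W)

lemma toW_inj {K : Subgroup W} (H : Subgroup K) : Function.Injective (toW H) :=
  fun _ _ h => Subtype.ext (Subtype.ext h)

theorem embed (K : Subgroup W) (H : Subgroup K) (hH : ∀ h ∈ H, (h : W) ∈ HW) (ht : tW ∈ K) :
    ∃ f : Monoid.Coprod H (Multiplicative ℕ) →* K,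
      Function.Injective f ∧ f.comp Monoid.Coprod.inl = H.subtype := by
  refine ⟨Monoid.Coprod.lift H.subtype (powersHom K ⟨tW, ht⟩), ?_,
    Monoid.Coprod.lift_comp_inl _ _⟩
  have key : ∀ (l : List H) (h : H),
      (((Monoid.Coprod.lift H.subtype (powersHom K ⟨tW, ht⟩)) (EC H h l) : K) : W) =
        EW (toW H h) (l.map (toW H)) := by
    intro l
    induction l with
    | nil => intro h; simp [EC, EW, toW]
    | cons x l ih =>
      intro h
      rw [EC, map_mul, map_mul, Subgroup.coe_mul, Subgroup.coe_mul, ih x, List.map_cons, EW]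
      simp [toW]
  have hHW : ∀ y : H, toW H y ∈ HW := fun y => hH _ y.2
  intro x y hxy
  obtain ⟨h, l, rfl⟩ := exists_EC H x
  obtain ⟨h', l', rfl⟩ := exists_EC H y
  have h1 := congrArg (fun z : K => (z : W)) hxy
  simp only [key] at h1
  have h2 := EW_inj _ _ _ _ (hHW h) (hHW h') (by
    intro x hx
    obtain ⟨y, _, rfl⟩ := List.mem_map.1 hx
    exact hHW y) (by
    intro x hx
    obtain ⟨y, _, rfl⟩ := List.mem_map.1 hx
    exact hHW y) h1
  have h3 : h = h' := toW_inj H h2.1
  have h4 : l = l' := List.map_injective_iff.2 (toW_inj H) h2.2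
  rw [h3, h4]

end Pool.Agent.Lib.MP_4c94d3_al
end

section

set_option autoImplicit false

namespace Pool.Agent.Lib.MP_4c94d3_al

open Filter

/-- the free letter at the origin -/
def aW : W := la 0 true
/-- the translation by one -/
def sW : W := ⟨1, 0, 1⟩
/-- the multiplication by two -/
def uW : W := ⟨1, 1, 0⟩

/-- The group generated by `a, s, u`. -/
def KK : Subgroup W := Subgroup.closure {aW, sW, uW}

lemma aW_mem : aW ∈ KK := Subgroup.subset_closure (by simp)
lemma sW_mem : sW ∈ KK := Subgroup.subset_closure (by simp)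
lemma uW_mem : uW ∈ KK := Subgroup.subset_closure (by simp)

/-- The generators as elements of the group. -/
def aK : KK := ⟨aW, aW_mem⟩
def sK : KK := ⟨sW, sW_mem⟩
def uK : KK := ⟨uW, uW_mem⟩

/-- The subgroup generated by `a, s`. -/
def HH : Subgroup KK := Subgroup.closure {aK, sK}

lemma aK_mem : aK ∈ HH := Subgroup.subset_closure (by simp)
lemma sK_mem : sK ∈ HH := Subgroup.subset_closure (by simp)

lemma conj_s : sW * aW * sW⁻¹ = la 1 true := by
  ext
  · simp [sW, aW, la, sig, aff]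
  · simp [sW, aW, la]
  · simp [sW, aW, la]

lemma conj_u : uW⁻¹ * la 1 true * uW = tW := by
  ext
  · simp [uW, tW, la, sig, aff]
  · simp [uW, tW, la]
  · simp [uW, tW, la]

lemma u_a : uW * aW * uW⁻¹ = aW := by
  ext
  · simp [uW, aW, la, sig, aff]
  · simp [uW, aW, la]
  · simp [uW, aW, la]

lemma u_s : uW * sW * uW⁻¹ = sW * sW := by
  ext
  · simp [uW, sW, sig]
  · simp [uW, sW]
  · simp [uW, sW]
    norm_num

lemma HH_le : ∀ h ∈ HH, (h : W) ∈ HW := by
  have : HH ≤ HW.comap KK.subtype := by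
    rw [HH, Subgroup.closure_le]
    rintro x hx
    simp only [Set.mem_insert_iff, Set.mem_singleton_iff] at hx
    rcases hx with rfl | rfl
    · refine ⟨rfl, ⟨0, ?_⟩, ?_⟩
      · simp [aK, aW, la]
      · intro p hp
        simp [aK, aW, la] at hp
        subst hp
        exact ⟨0, by simp⟩
    · refine ⟨rfl, ⟨1, ?_⟩, ?_⟩
      · simp [sK, sW]
      · intro p hp
        simp [sK, sW] at hp
  intro h hh
  exact this hh

lemma la_mem : ∀ x ∈ ({0, 1} : Set ℚ), ∀ δ, la x δ ∈ KK := by
  have h0 : la 0 true ∈ KK := aW_mem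
  have h1 : la 1 true ∈ KK := by
    rw [← conj_s]
    exact KK.mul_mem (KK.mul_mem sW_mem aW_mem) (KK.inv_mem sW_mem)
  intro x hx δ
  simp only [Set.mem_insert_iff, Set.mem_singleton_iff] at hx
  rcases hx with rfl | rfl
  · cases δ
    · have := KK.inv_mem h0
      rwa [la_inv] at this
    · exact h0
  · cases δ
    · have := KK.inv_mem h1
      rwa [la_inv] at this
    · exact h1

lemma tW_mem : tW ∈ KK := by
  rw [← conj_u]
  exact KK.mul_mem (KK.mul_mem (KK.inv_mem uW_mem) (la_mem 1 (by simp) true)) uW_mem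

lemma conj_mem : ∀ h ∈ HH, uK * h * uK⁻¹ ∈ HH := by
  have : HH ≤ conjSub HH uK := by
    conv_lhs => rw [HH]
    rw [Subgroup.closure_le]
    intro x hx
    simp only [Set.mem_insert_iff, Set.mem_singleton_iff] at hx
    rw [SetLike.mem_coe, mem_conjSub]
    rcases hx with rfl | rfl
    · have : uK * aK * uK⁻¹ = aK := Subtype.ext u_a
      rw [this]; exact aK_mem
    · have : uK * sK * uK⁻¹ = sK * sK := Subtype.ext u_s
      rw [this]; exact HH.mul_mem sK_mem sK_mem
  intro h hh
  exact (mem_conjSub _ _ _).1 (this hh)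

lemma conj_pow_mem (n : ℕ) : ∀ h ∈ HH, uK ^ n * h * (uK ^ n)⁻¹ ∈ HH := by
  induction n with
  | zero => intro h hh; simpa using hh
  | succ n ih =>
    intro h hh
    have := conj_mem _ (ih h hh)
    have e : uK ^ (n + 1) * h * (uK ^ (n + 1))⁻¹ = uK * (uK ^ n * h * (uK ^ n)⁻¹) * uK⁻¹ := by
      rw [pow_succ']; group
    rw [e]; exact this

/-- every element has the form `u ^ (-i) * h * u ^ j` -/
def TT : Subgroup KK where
  carrier := {g | ∃ (i j : ℕ), ∃ h ∈ HH, g = (uK ^ i)⁻¹ * h * uK ^ j}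
  one_mem' := ⟨0, 0, 1, HH.one_mem, by simp⟩
  mul_mem' := by
    rintro g g' ⟨i, j, h, hh, rfl⟩ ⟨i', j', h', hh', rfl⟩
    rcases le_total i' j with hle | hle
    · obtain ⟨d, rfl⟩ := Nat.exists_eq_add_of_le hle
      refine ⟨i, d + j', h * (uK ^ d * h' * (uK ^ d)⁻¹),
        HH.mul_mem hh (conj_pow_mem d h' hh'), ?_⟩
      rw [pow_add, pow_add, pow_mul_comm uK i' d]
      group
    · obtain ⟨d, rfl⟩ := Nat.exists_eq_add_of_le hle
      refine ⟨i + d, j', (uK ^ d * h * (uK ^ d)⁻¹) * h',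
        HH.mul_mem (conj_pow_mem d h hh) hh', ?_⟩
      rw [pow_add, pow_add, pow_mul_comm uK i d]
      group
  inv_mem' := by
    rintro g ⟨i, j, h, hh, rfl⟩
    refine ⟨j, i, h⁻¹, HH.inv_mem hh, ?_⟩
    group

lemma closure_gens : Subgroup.closure ({aK, sK, uK} : Set KK) = ⊤ := by
  rw [eq_top_iff]
  rintro ⟨x, hx⟩ _
  have : ∀ y (hy : y ∈ Subgroup.closure ({aW, sW, uW} : Set W)),
      (⟨y, hy⟩ : KK) ∈ Subgroup.closure ({aK, sK, uK} : Set KK) := by
    intro y hy
    induction hy using Subgroup.closure_induction with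
    | mem y hy =>
      apply Subgroup.subset_closure
      simp only [Set.mem_insert_iff, Set.mem_singleton_iff] at hy ⊢
      rcases hy with rfl | rfl | rfl
      · left; rfl
      · right; left; rfl
      · right; right; rfl
    | one => exact Subgroup.one_mem _
    | mul y z hy hz h1 h2 => exact Subgroup.mul_mem _ h1 h2
    | inv y hy h1 => exact Subgroup.inv_mem _ h1
  exact this x hx

lemma TT_top : TT = ⊤ := by
  rw [eq_top_iff, ← closure_gens, Subgroup.closure_le]
  intro x hx
  simp only [Set.mem_insert_iff, Set.mem_singleton_iff] at hx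
  rcases hx with rfl | rfl | rfl
  · exact ⟨0, 0, aK, aK_mem, by simp⟩
  · exact ⟨0, 0, sK, sK_mem, by simp⟩
  · exact ⟨0, 1, 1, HH.one_mem, by simp⟩

lemma pow_uK_k (n : ℕ) : ((uK ^ n : KK) : W).k = n := by
  induction n with
  | zero => simp
  | succ n ih =>
    rw [pow_succ, Subgroup.coe_mul, mul_k, ih]
    simp [uK, uW]

lemma exhaust (g : KK) (hg : (g : W).k = 0) :
    ∃ M : ℕ, ∀ m ≥ M, uK ^ m * g * (uK ^ m)⁻¹ ∈ HH := by
  have : g ∈ TT := by rw [TT_top]; trivial
  obtain ⟨i, j, h, hh, rfl⟩ := this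
  have hk : (h : W).k = 0 := (HH_le h hh).1
  have hij : i = j := by
    simp only [Subgroup.coe_mul, Subgroup.coe_inv, mul_k, inv_k, pow_uK_k, hk] at hg
    omega
  subst hij
  refine ⟨i, ?_⟩
  intro m hm
  obtain ⟨d, rfl⟩ := Nat.exists_eq_add_of_le hm
  have := conj_pow_mem d h hh
  have e : uK ^ (i + d) * ((uK ^ i)⁻¹ * h * uK ^ i) * (uK ^ (i + d))⁻¹ =
      uK ^ d * h * (uK ^ d)⁻¹ := by
    rw [add_comm, pow_add]; group
  rw [e]; exact this

lemma HH_ne_bot : HH ≠ ⊥ := by
  intro h
  have h1 : sK ∈ HH := sK_mem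
  rw [h, Subgroup.mem_bot] at h1
  have h2 := congrArg (fun z : KK => (z : W).b) h1
  simp [sK, sW] at h2

theorem embedding : ∃ f : Monoid.Coprod HH (Multiplicative ℕ) →* KK,
      Function.Injective f ∧ f.comp Monoid.Coprod.inl = HH.subtype :=
  embed KK HH HH_le tW_mem

/-- The relative growth of `H` is at least the growth of `G`, for every finite generating set. -/
theorem growth_le (S : Finset KK) (hS : Subgroup.closure (S : Set KK) = ⊤) :
    limsup (fun n : ℕ => ((ball S n).ncard : ℝ) ^ ((1 : ℝ) / (n : ℝ))) atTop ≤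
      limsup (fun n : ℕ => (((HH : Set KK) ∩ ball S n).ncard : ℝ) ^ ((1 : ℝ) / (n : ℝ))) atTop := by
  obtain ⟨c, E, hkey⟩ := key S hS HH uK la_mem exhaust
  refine limsup_le_of_key (fun n => ((HH : Set KK) ∩ ball S n).ncard)
    (fun n => (ball S n).ncard) (2 * S.card + 1) c E (by omega) ?_ ?_ ?_ hkey
  · intro n
    have h1 : ((HH : Set KK) ∩ ball S n).Nonempty := ⟨1, HH.one_mem, one_mem_ball S n⟩
    have h2 : ((HH : Set KK) ∩ ball S n).Finite := (ball_finite S n).subset Set.inter_subset_right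
    exact (Set.ncard_pos h2).2 h1
  · intro n
    exact Set.ncard_le_ncard Set.inter_subset_right (ball_finite S n)
  · intro n
    exact ball_card_le S n

end Pool.Agent.Lib.MP_4c94d3_al
end
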